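import Pool.Agent.TH186.AllGenera
import Pool.Agent.TH558.J435
import Pool.Agent.TH558.J436
import Pool.Agent.TH558.J437

/-!
# MP_3b64ec_ag: curves with Clifford index 3 have rank-3 Clifford index 3

Every curve of genus at least 7 with `Cliff_1(C) = 3` has `Cliff_3(C) = 3`; in particular its rank-3
Clifford index is not `8/3`.
-/

set_option autoImplicit false

open Pool.Agent.Helper395.CS hiding genus
open Pool.Agent.Helper395.BC
open Pool.Agent.TH186

namespace Pool.Agent.Results.MP_3b64ec_ag.CliffordThree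

/-- If `C` is a curve of genus at least 7 with `Cliff_1(C) = 3`, then `Cliff_3(C) = 3`, and
`Cliff_3(C)` is not `8/3`. -/
theorem result (K : Type) [Field K] [Algebra ℂ K] (hK : IsCurve K) (hg : 7 ≤ genus K)
    (h : IsCliff K 1 3) : IsCliff K 3 3 ∧ ¬ IsCliff K 3 (8 / 3) := by
  have h3 : IsCliff K 3 3 :=
    Low.cliff3_all hK hg
      (fun hK hg hLB {_} hd h6 hplane L hL hL3 h2 =>
        Pool.Agent.TH558.J435.two_maps hK hg hLB hd h6 hplane L hL hL3 h2)
      (fun hK hg L hL hL3 hU hLB3 {_} hE hd h6 {_ _ _} hQ hX =>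
        Pool.Agent.TH558.J436.case_zero hK hg L hL hL3 hU hLB3 hE hd h6 hQ hX)
      (fun hPR hK hg L hL hL3 hL2 {_} hE hd h6 hplane {_ _ _} hQ hX =>
        Pool.Agent.TH558.J437.case_one hPR hK hg L hL hL3 hL2 hE hd h6 hplane hQ hX) h
  refine ⟨h3, fun h8 => ?_⟩
  have := h3.unique h8
  norm_num at this

end Pool.Agent.Results.MP_3b64ec_ag.CliffordThree
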